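import Mathlib

/-! Branching rule for the generating polynomials of semistandard Young tableaux. -/

set_option autoImplicit false

namespace Pool.Agent.R133.Snp

open MvPolynomial

/-- tableaux with entries `< k` -/
abbrev TB (μ : YoungDiagram) (k : ℕ) : Type :=
  {T : SemistandardYoungTableau μ // ∀ p ∈ μ.cells, T p.1 p.2 < k}

/-- the Schur polynomial in `k` variables. -/
noncomputable def SP (μ : YoungDiagram) (k : ℕ) : MvPolynomial ℕ ℤ :=
  ∑ᶠ T : TB μ k, ∏ p ∈ μ.cells, (X (T.1 p.1 p.2) : MvPolynomial ℕ ℤ)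

instance finTB (μ : YoungDiagram) (k : ℕ) : Finite (TB μ k) := by
  refine Finite.of_injective
    (fun (T : TB μ k) => (fun p : μ.cells => (⟨T.1 p.1.1 p.1.2, T.2 p.1 p.2⟩ : Fin k))) ?_
  intro T T' h
  apply Subtype.ext
  apply SemistandardYoungTableau.ext
  intro i j
  by_cases hij : (i, j) ∈ μ
  · have := congrFun h ⟨(i, j), hij⟩
    exact congrArg Fin.val this
  · rw [T.1.zeros hij, T'.1.zeros hij]

/-- `μ / κ` is a horizontal strip. -/
def HS (κ μ : YoungDiagram) : Prop := κ ≤ μ ∧ ∀ i j, (i + 1, j) ∈ μ → (i, j) ∈ κ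

instance finHS (μ : YoungDiagram) : Finite {κ // HS κ μ} := by
  refine Finite.of_injective (fun κ : {κ // HS κ μ} =>
    (⟨κ.1.cells, Finset.mem_powerset.2 (fun p hp => κ.2.1 hp)⟩ : μ.cells.powerset)) ?_
  intro κ κ' h
  apply Subtype.ext
  apply YoungDiagram.ext
  exact congrArg Subtype.val h

/-- cells with entry `< k` -/
def low {μ : YoungDiagram} (k : ℕ) (T : SemistandardYoungTableau μ) : YoungDiagram where
  cells := μ.cells.filter (fun p => T p.1 p.2 < k)
  isLowerSet := by
    rintro ⟨i, j⟩ ⟨i', j'⟩ hle h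
    simp only [Finset.coe_filter, YoungDiagram.mem_cells, Set.mem_ofPred_eq] at h ⊢
    have hi : i' ≤ i := hle.1
    have hj : j' ≤ j := hle.2
    have hm : (i', j') ∈ μ := μ.up_left_mem hi hj h.1
    refine ⟨hm, ?_⟩
    have h1 : T i' j' ≤ T i j' := T.col_weak hi (μ.up_left_mem le_rfl hj h.1)
    have h2 : T i j' ≤ T i j := T.row_weak_of_le hj h.1
    omega

theorem mem_low {μ : YoungDiagram} (k : ℕ) (T : SemistandardYoungTableau μ) (p : ℕ × ℕ) :
    p ∈ low k T ↔ p ∈ μ ∧ T p.1 p.2 < k := by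
  show p ∈ μ.cells.filter (fun p => T p.1 p.2 < k) ↔ _
  rw [Finset.mem_filter, YoungDiagram.mem_cells]

theorem low_HS {μ : YoungDiagram} (k : ℕ) (T : TB μ (k + 1)) : HS (low k T.1) μ := by
  refine ⟨fun p hp => ((mem_low k T.1 p).1 hp).1, fun i j h => ?_⟩
  rw [mem_low]
  refine ⟨μ.up_left_mem (Nat.le_succ i) le_rfl h, ?_⟩
  have h1 := T.1.col_strict (Nat.lt_succ_self i) h
  have h2 := T.2 (i + 1, j) h
  simp only at h2 ⊢
  simp only [Nat.succ_eq_add_one] at h1
  omega

/-- restriction of a tableau -/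
def res {μ : YoungDiagram} (k : ℕ) (κ : YoungDiagram) (T : TB μ (k + 1)) (h : low k T.1 = κ) :
    TB κ k :=
  ⟨{ entry := fun i j => if (i, j) ∈ κ then T.1 i j else 0
     row_weak' := by
       intro i j1 j2 hj h2
       have h1 : (i, j1) ∈ κ := κ.up_left_mem le_rfl hj.le h2
       rw [if_pos h1, if_pos h2]
       rw [← h, mem_low] at h2
       exact T.1.row_weak hj h2.1
     col_strict' := by
       intro i1 i2 j hi h2
       have h1 : (i1, j) ∈ κ := κ.up_left_mem hi.le le_rfl h2
       rw [if_pos h1, if_pos h2]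
       rw [← h, mem_low] at h2
       exact T.1.col_strict hi h2.1
     zeros' := by
       intro i j hn
       rw [if_neg hn] }, by
    intro p hp
    have hp' : (p.1, p.2) ∈ κ := hp
    show (if (p.1, p.2) ∈ κ then T.1 p.1 p.2 else 0) < k
    rw [if_pos hp']
    rw [← h, mem_low] at hp'
    exact hp'.2⟩

theorem res_apply {μ : YoungDiagram} (k : ℕ) (κ : YoungDiagram) (T : TB μ (k + 1))
    (h : low k T.1 = κ) (i j : ℕ) :
    (res k κ T h).1 i j = if (i, j) ∈ κ then T.1 i j else 0 := rfl

/-- extension of a tableau by entries `k` -/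
def exd {μ : YoungDiagram} (k : ℕ) (κ : YoungDiagram) (hs : HS κ μ) (T : TB κ k) :
    TB μ (k + 1) :=
  ⟨{ entry := fun i j => if (i, j) ∈ κ then T.1 i j else if (i, j) ∈ μ then k else 0
     row_weak' := by
       intro i j1 j2 hj h2
       have h1 : (i, j1) ∈ μ := μ.up_left_mem le_rfl hj.le h2
       by_cases h2' : (i, j2) ∈ κ
       · have h1' : (i, j1) ∈ κ := κ.up_left_mem le_rfl hj.le h2'
         rw [if_pos h1', if_pos h2']
         exact T.1.row_weak hj h2'
       · rw [if_neg h2', if_pos h2]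
         by_cases h1' : (i, j1) ∈ κ
         · rw [if_pos h1']
           exact (T.2 (i, j1) h1').le
         · rw [if_neg h1', if_pos h1]
     col_strict' := by
       intro i1 i2 j hi h2
       by_cases h2' : (i2, j) ∈ κ
       · have h1' : (i1, j) ∈ κ := κ.up_left_mem hi.le le_rfl h2'
         rw [if_pos h1', if_pos h2']
         exact T.1.col_strict hi h2'
       · rw [if_neg h2', if_pos h2]
         have h1' : (i1, j) ∈ κ := hs.2 i1 j (μ.up_left_mem (by omega) le_rfl h2)
         rw [if_pos h1']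
         exact T.2 (i1, j) h1'
     zeros' := by
       intro i j hn
       have hn' : (i, j) ∉ κ := fun h => hn (hs.1 h)
       rw [if_neg hn', if_neg hn] }, by
    intro p hp
    have hp' : (p.1, p.2) ∈ μ := hp
    show (if (p.1, p.2) ∈ κ then T.1 p.1 p.2 else if (p.1, p.2) ∈ μ then k else 0) < k + 1
    rw [if_pos hp']
    split_ifs with h
    · exact (T.2 p h).trans (Nat.lt_succ_self k)
    · exact Nat.lt_succ_self k⟩

theorem exd_apply {μ : YoungDiagram} (k : ℕ) (κ : YoungDiagram) (hs : HS κ μ) (T : TB κ k)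
    (i j : ℕ) :
    (exd k κ hs T).1 i j = if (i, j) ∈ κ then T.1 i j else if (i, j) ∈ μ then k else 0 := rfl

theorem low_exd {μ : YoungDiagram} (k : ℕ) (κ : YoungDiagram) (hs : HS κ μ) (T : TB κ k) :
    low k (exd k κ hs T).1 = κ := by
  apply YoungDiagram.ext
  ext ⟨i, j⟩
  rw [YoungDiagram.mem_cells, YoungDiagram.mem_cells, mem_low, exd_apply]
  constructor
  · rintro ⟨h1, h2⟩
    by_contra hn
    simp only at h2
    rw [if_neg hn, if_pos h1] at h2
    exact lt_irrefl _ h2
  · intro h
    refine ⟨hs.1 h, ?_⟩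
    simp only
    rw [if_pos h]
    exact T.2 (i, j) h

/-- the equivalence -/
def brE {μ : YoungDiagram} (k : ℕ) (κ : YoungDiagram) (hs : HS κ μ) :
    {T : TB μ (k + 1) // low k T.1 = κ} ≃ TB κ k where
  toFun T := res k κ T.1 T.2
  invFun T := ⟨exd k κ hs T, low_exd k κ hs T⟩
  left_inv := by
    rintro ⟨T, h⟩
    apply Subtype.ext
    apply Subtype.ext
    apply SemistandardYoungTableau.ext
    intro i j
    simp only
    rw [exd_apply]
    split_ifs with h1 h2
    · rw [res_apply, if_pos h1]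
    · rw [← h, mem_low] at h1
      have h3 := T.2 (i, j) h2
      simp only [not_and, not_lt] at h1 h3
      have h4 := h1 h2
      omega
    · exact (T.1.zeros h2).symm
  right_inv := by
    intro T
    apply Subtype.ext
    apply SemistandardYoungTableau.ext
    intro i j
    simp only
    rw [res_apply]
    split_ifs with h1
    · rw [exd_apply, if_pos h1]
    · exact (T.1.zeros h1).symm

theorem SP_succ (μ : YoungDiagram) (k : ℕ) [Fintype {κ // HS κ μ}] :
    SP μ (k + 1) = ∑ κ : {κ // HS κ μ}, X k ^ (μ.card - κ.1.card) * SP κ.1 k := by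
  classical
  haveI : Fintype (TB μ (k + 1)) := Fintype.ofFinite _
  rw [SP, finsum_eq_sum_of_fintype]
  rw [← Fintype.sum_fiberwise (fun T : TB μ (k + 1) => (⟨low k T.1, low_HS k T⟩ : {κ // HS κ μ}))]
  refine Finset.sum_congr rfl (fun κ _ => ?_)
  haveI : Fintype (TB κ.1 k) := Fintype.ofFinite _
  rw [SP, finsum_eq_sum_of_fintype, Finset.mul_sum]
  let e : {T : TB μ (k + 1) // (⟨low k T.1, low_HS k T⟩ : {κ // HS κ μ}) = κ} ≃ TB κ.1 k :=
    (Equiv.subtypeEquivRight (fun T => by
      constructor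
      · intro h; exact congrArg Subtype.val h
      · intro h; exact Subtype.ext h)).trans (brE k κ.1 κ.2)
  rw [← Equiv.sum_comp e.symm]
  refine Finset.sum_congr rfl (fun T _ => ?_)
  have hT : ((e.symm T).1 : TB μ (k + 1)) = exd k κ.1 κ.2 T := rfl
  rw [hT]
  have hsub : κ.1.cells ⊆ μ.cells := fun p hp => κ.2.1 hp
  rw [← Finset.prod_sdiff hsub]
  congr 1
  · rw [Finset.prod_congr rfl (g := fun _ => (X k : MvPolynomial ℕ ℤ)), Finset.prod_const,
      Finset.card_sdiff_of_subset hsub]
    intro p hp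
    rw [Finset.mem_sdiff] at hp
    have h1 : (p.1, p.2) ∉ κ.1 := hp.2
    have h2 : (p.1, p.2) ∈ μ := hp.1
    rw [exd_apply, if_neg h1, if_pos h2]
  · refine Finset.prod_congr rfl (fun p hp => ?_)
    have h1 : (p.1, p.2) ∈ κ.1 := hp
    rw [exd_apply, if_pos h1]

theorem SP_zero_bot : SP ⊥ 0 = 1 := by
  classical
  have : Unique (TB ⊥ 0) := 
    { default := ⟨{ entry := fun _ _ => 0, 
                    row_weak' := fun {_ _ _} _ _ => le_rfl
                    col_strict' := fun {_ _ _} _ h => absurd h (YoungDiagram.notMem_bot _)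
                    zeros' := fun {_ _} _ => rfl }, fun p hp => absurd hp (YoungDiagram.notMem_bot _)⟩
      uniq := fun T => by
        apply Subtype.ext
        apply SemistandardYoungTableau.ext
        intro i j
        exact T.1.zeros (YoungDiagram.notMem_bot _) }
  rw [SP, finsum_unique]
  simp

theorem SP_zero_of_card (μ : YoungDiagram) (h : μ.card ≠ 0) : SP μ 0 = 0 := by
  have : IsEmpty (TB μ 0) := by
    refine ⟨fun T => ?_⟩
    obtain ⟨p, hp⟩ := Finset.card_pos.1 (Nat.pos_of_ne_zero h)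
    exact absurd (T.2 p hp) (Nat.not_lt_zero _)
  rw [SP, finsum_of_isEmpty]

end Pool.Agent.R133.Snp
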