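import Pool.Agent.R133.Snp.Tab

/-! The kernel check of the table. -/

set_option autoImplicit false

namespace Pool.Agent.R133.Snp

theorem chk00 : chks 0 0 = true := by decide +kernel
theorem chk01 : chks 0 1 = true := by decide +kernel
theorem chk02 : chks 0 2 = true := by decide +kernel
theorem chk10 : chks 1 0 = true := by decide +kernel
theorem chk11 : chks 1 1 = true := by decide +kernel
theorem chk12 : chks 1 2 = true := by decide +kernel
theorem chk20 : chks 2 0 = true := by decide +kernel
theorem chk21 : chks 2 1 = true := by decide +kernel
theorem chk22 : chks 2 2 = true := by decide +kernel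

end Pool.Agent.R133.Snp
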