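import Pool.Agent.R133.Snp.Tab

/-! The kernel check of the table. -/

set_option autoImplicit false

namespace Pool.Agent.R133.Snp

theorem chk42 : chks 4 2 = true := by decide +kernel

end Pool.Agent.R133.Snp
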