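import Mathlib

/-! Recursion for chromatic polynomials in `k` variables of all induced subgraphs. -/

set_option autoImplicit false

namespace Pool.Agent.R133.Snp

open MvPolynomial Finset

section
variable {V : Type} [Fintype V] [DecidableEq V] (A : V → V → Prop) [DecidableRel A]

/-- colourings of `H` with colours `< k`, `0` outside `H` -/
def CF (H : Finset V) (k : ℕ) : Finset (V → ℕ) :=
  (Fintype.piFinset (fun v => if v ∈ H then range k else {0})).filter
    (fun f => ∀ u ∈ H, ∀ v ∈ H, A u v → f u ≠ f v)

theorem mem_CF {H : Finset V} {k : ℕ} {f : V → ℕ} : f ∈ CF A H k ↔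
    (∀ v ∈ H, f v < k) ∧ (∀ v, v ∉ H → f v = 0) ∧ (∀ u ∈ H, ∀ v ∈ H, A u v → f u ≠ f v) := by
  rw [CF, mem_filter, Fintype.mem_piFinset, ← and_assoc]
  refine and_congr_left (fun _ => ?_)
  constructor
  · intro h
    refine ⟨fun v hv => ?_, fun v hv => ?_⟩
    · have := h v
      rw [if_pos hv, mem_range] at this
      exact this
    · have := h v
      rw [if_neg hv, mem_singleton] at this
      exact this
  · rintro ⟨h1, h2⟩ v
    by_cases hv : v ∈ H
    · rw [if_pos hv, mem_range]; exact h1 v hv
    · rw [if_neg hv, mem_singleton]; exact h2 v hv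

/-- the chromatic polynomial of `H` in `k` variables -/
noncomputable def PC (H : Finset V) (k : ℕ) : MvPolynomial ℕ ℤ :=
  ∑ f ∈ CF A H k, ∏ v ∈ H, X (f v)

/-- stable sets -/
def Stb (S : Finset V) : Prop := ∀ u ∈ S, ∀ v ∈ S, ¬ A u v

instance : DecidablePred (Stb A) := fun S => by unfold Stb; infer_instance

theorem PC_succ (H : Finset V) (k : ℕ) : PC A H (k + 1) =
    ∑ S ∈ H.powerset.filter (Stb A), X k ^ S.card * PC A (H \ S) k := by
  rw [PC, ← Finset.sum_fiberwise_of_maps_to (t := H.powerset.filter (Stb A))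
    (g := fun f : V → ℕ => H.filter (fun v => f v = k))]
  · refine sum_congr rfl (fun S hS => ?_)
    rw [mem_filter, mem_powerset] at hS
    obtain ⟨hSH, hst⟩ := hS
    rw [PC, mul_sum]
    refine sum_bij' (fun f _ => fun v => if v ∈ S then 0 else f v)
      (fun g _ => fun v => if v ∈ S then k else g v) ?_ ?_ ?_ ?_ ?_
    · intro f hf
      rw [mem_filter, mem_CF] at hf
      obtain ⟨⟨h1, h2, h3⟩, h4⟩ := hf
      rw [mem_CF]
      have hnS : ∀ v ∈ H, v ∉ S → f v ≠ k := by
        intro v hv hvS h
        exact hvS (h4 ▸ mem_filter.2 ⟨hv, h⟩)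
      refine ⟨fun v hv => ?_, fun v hv => ?_, fun u hu v hv huv => ?_⟩
      · rw [mem_sdiff] at hv
        rw [if_neg hv.2]
        have := h1 v hv.1
        have := hnS v hv.1 hv.2
        omega
      · split_ifs with h
        · rfl
        · exact h2 v (fun h' => hv (mem_sdiff.2 ⟨h', h⟩))
      · rw [mem_sdiff] at hu hv
        rw [if_neg hu.2, if_neg hv.2]
        exact h3 u hu.1 v hv.1 huv
    · intro g hg
      rw [mem_CF] at hg
      obtain ⟨h1, h2, h3⟩ := hg
      rw [mem_filter, mem_CF]
      refine ⟨⟨fun v hv => ?_, fun v hv => ?_, fun u hu v hv huv => ?_⟩, ?_⟩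
      · split_ifs with h
        · omega
        · have := h1 v (mem_sdiff.2 ⟨hv, h⟩)
          omega
      · rw [if_neg (fun h => hv (hSH h))]
        exact h2 v (fun h => hv (mem_sdiff.1 h).1)
      · by_cases hu' : u ∈ S
        · by_cases hv' : v ∈ S
          · exact absurd huv (hst u hu' v hv')
          · rw [if_pos hu', if_neg hv']
            have := h1 v (mem_sdiff.2 ⟨hv, hv'⟩)
            omega
        · by_cases hv' : v ∈ S
          · rw [if_neg hu', if_pos hv']
            have := h1 u (mem_sdiff.2 ⟨hu, hu'⟩)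
            omega
          · rw [if_neg hu', if_neg hv']
            exact h3 u (mem_sdiff.2 ⟨hu, hu'⟩) v (mem_sdiff.2 ⟨hv, hv'⟩) huv
      · ext v
        rw [mem_filter]
        constructor
        · rintro ⟨hv, h⟩
          by_contra hn
          simp only at h
          rw [if_neg hn] at h
          have := h1 v (mem_sdiff.2 ⟨hv, hn⟩)
          omega
        · intro h
          exact ⟨hSH h, if_pos h⟩
    · intro f hf
      rw [mem_filter, mem_CF] at hf
      obtain ⟨⟨h1, h2, h3⟩, h4⟩ := hf
      funext v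
      simp only
      split_ifs with h
      · rw [← h4, mem_filter] at h
        exact h.2.symm
      · rfl
    · intro g hg
      rw [mem_CF] at hg
      obtain ⟨h1, h2, h3⟩ := hg
      funext v
      simp only
      split_ifs with h
      · exact (h2 v (fun h' => (mem_sdiff.1 h').2 h)).symm
      · rfl
    · intro f hf
      rw [mem_filter, mem_CF] at hf
      obtain ⟨⟨h1, h2, h3⟩, h4⟩ := hf
      rw [← prod_sdiff hSH, mul_comm]
      congr 1
      · rw [← prod_const]
        refine prod_congr rfl (fun v hv => ?_)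
        rw [← h4, mem_filter] at hv
        rw [hv.2]
      · refine prod_congr rfl (fun v hv => ?_)
        rw [mem_sdiff] at hv
        show X (f v) = X (if v ∈ S then 0 else f v)
        rw [if_neg hv.2]
  · intro f hf
    rw [mem_CF] at hf
    rw [mem_filter, mem_powerset]
    refine ⟨filter_subset _ _, fun u hu v hv huv => ?_⟩
    rw [mem_filter] at hu hv
    exact hf.2.2 u hu.1 v hv.1 huv (hu.2.trans hv.2.symm)

theorem PC_zero (H : Finset V) : PC A H 0 = if H = ∅ then 1 else 0 := by
  rw [PC]
  split_ifs with h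
  · subst h
    have : CF A ∅ 0 = {fun _ => 0} := by
      ext f
      rw [mem_CF, mem_singleton]
      constructor
      · rintro ⟨-, h, -⟩
        funext v
        exact h v (by simp)
      · rintro rfl
        simp
    rw [this, sum_singleton, prod_empty]
  · obtain ⟨v, hv⟩ := Finset.nonempty_iff_ne_empty.2 h
    have : CF A H 0 = ∅ := by
      rw [Finset.eq_empty_iff_forall_notMem]
      intro f hf
      rw [mem_CF] at hf
      exact absurd (hf.1 v hv) (Nat.not_lt_zero _)
    rw [this, sum_empty]

/-- the polynomial of the frozen statement -/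
theorem finsum_eq_PC (k : ℕ) :
    (∑ᶠ κ : {κ : V → Fin k // ∀ u v, A u v → κ u ≠ κ v},
      ∏ v, (MvPolynomial.X ((κ.1 v : ℕ)) : MvPolynomial ℕ ℤ)) = PC A univ k := by
  classical
  rw [finsum_eq_sum_of_fintype, PC]
  refine sum_bij (fun κ _ => fun v => (κ.1 v : ℕ)) ?_ ?_ ?_ ?_
  · intro κ _
    rw [mem_CF]
    refine ⟨fun v _ => (κ.1 v).2, fun v hv => absurd (mem_univ v) hv, fun u _ v _ huv h => ?_⟩
    exact κ.2 u v huv (Fin.ext h)
  · intro κ _ κ' _ h
    apply Subtype.ext
    funext v
    exact Fin.ext (congrFun h v)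
  · intro f hf
    rw [mem_CF] at hf
    refine ⟨⟨fun v => ⟨f v, hf.1 v (mem_univ v)⟩, fun u v huv h => ?_⟩, mem_univ _, ?_⟩
    · exact hf.2.2 u (mem_univ u) v (mem_univ v) huv (congrArg Fin.val h)
    · rfl
  · intro κ _
    rfl

end

section types

/-- binomial sums -/
def Bn {M : Type*} [AddCommMonoid M] (m : ℕ) (G : ℕ → M) : M :=
  ∑ i ∈ range (m + 1), m.choose i • G i

variable {M : Type*} [AddCommMonoid M]

theorem Bn_add (m : ℕ) (G G' : ℕ → M) : Bn m (fun i => G i + G' i) = Bn m G + Bn m G' := by
  simp only [Bn, smul_add, sum_add_distrib]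

theorem Bn_zero (G : ℕ → M) : Bn 0 G = G 0 := by simp [Bn]

theorem Bn_succ (m : ℕ) (G : ℕ → M) : Bn (m + 1) G = Bn m G + Bn m (fun i => G (i + 1)) := by
  have e1 : ∑ i ∈ range (m + 1), m.choose (i + 1) • G (i + 1) + m.choose 0 • G 0 =
      ∑ i ∈ range (m + 1), m.choose i • G i := by
    rw [← sum_range_succ' (fun i => m.choose i • G i) (m + 1), sum_range_succ]
    simp
  rw [Bn, Bn, Bn, sum_range_succ', ← e1]
  simp only [Nat.choose_succ_succ, add_smul, sum_add_distrib, Nat.choose_zero_right]
  abel

theorem Bn_congr {m : ℕ} {G G' : ℕ → M} (h : ∀ i ≤ m, G i = G' i) : Bn m G = Bn m G' := by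
  refine sum_congr rfl (fun i hi => ?_)
  rw [h i (by rw [mem_range] at hi; omega)]

variable {V : Type} [DecidableEq V] (cls : V → Fin 4)

/-- number of elements in a class -/
def cnt (H : Finset V) (i : Fin 4) : ℕ := (H.filter (fun v => cls v = i)).card

theorem cnt_insert {H : Finset V} {v : V} (h : v ∉ H) (i : Fin 4) :
    cnt cls (insert v H) i = cnt cls H i + if cls v = i then 1 else 0 := by
  rw [cnt, cnt, filter_insert]
  split_ifs with h1
  · rw [card_insert_of_notMem]
    intro h2
    exact h (mem_filter.1 h2).1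
  · rfl

theorem sum_types (H : Finset V) (g : ℕ → ℕ → ℕ → ℕ → M) :
    ∑ S ∈ H.powerset, g (cnt cls S 0) (cnt cls S 1) (cnt cls S 2) (cnt cls S 3) =
      Bn (cnt cls H 0) fun i => Bn (cnt cls H 1) fun j => Bn (cnt cls H 2) fun l =>
        Bn (cnt cls H 3) fun m => g i j l m := by
  induction H using Finset.induction_on generalizing g with
  | empty => simp [cnt, Bn]
  | insert v H hv ih =>
    rw [sum_powerset_insert hv, ih]
    have hc : ∀ S ∈ H.powerset, ∀ i, cnt cls (insert v S) i = cnt cls S i +
        if cls v = i then 1 else 0 := fun S hS i =>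
      cnt_insert cls (fun h => hv (mem_powerset.1 hS h)) i
    rw [sum_congr rfl (fun S hS => by rw [hc S hS, hc S hS, hc S hS, hc S hS])]
    simp only [cnt_insert cls hv]
    generalize hcv : cls v = c
    fin_cases c
    · simp only [Fin.zero_eta, Fin.isValue, ↓reduceIte, Fin.reduceEq, zero_ne_one, add_zero]
      rw [ih (fun i j l m => g (i + 1) j l m), Bn_succ]
    · simp only [Fin.mk_one, Fin.isValue, Fin.reduceEq, ↓reduceIte, one_ne_zero, add_zero]
      rw [ih (fun i j l m => g i (j + 1) l m), ← Bn_add]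
      congr 1
      funext i
      rw [Bn_succ]
    · simp only [Fin.reduceFinMk, Fin.isValue, Fin.reduceEq, ↓reduceIte, add_zero]
      rw [ih (fun i j l m => g i j (l + 1) m), ← Bn_add]
      congr 1
      funext i
      rw [← Bn_add]
      congr 1
      funext j
      rw [Bn_succ]
    · simp only [Fin.reduceFinMk, Fin.isValue, Fin.reduceEq, ↓reduceIte, add_zero]
      rw [ih (fun i j l m => g i j l (m + 1)), ← Bn_add]
      congr 1
      funext i
      rw [← Bn_add]
      congr 1
      funext j
      rw [← Bn_add]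
      congr 1
      funext l
      rw [Bn_succ]

theorem card_cnt (H : Finset V) :
    H.card = cnt cls H 0 + cnt cls H 1 + cnt cls H 2 + cnt cls H 3 := by
  induction H using Finset.induction_on with
  | empty => simp [cnt]
  | insert v H hv ih =>
    rw [card_insert_of_notMem hv, ih]
    simp only [cnt_insert cls hv]
    generalize cls v = c
    fin_cases c <;> simp <;> ring

theorem cnt_sdiff {H S : Finset V} (h : S ⊆ H) (i : Fin 4) :
    cnt cls (H \ S) i = cnt cls H i - cnt cls S i := by
  rw [cnt, cnt, cnt, ← card_sdiff_of_subset (filter_subset_filter _ h)]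
  congr 1
  ext v
  simp only [mem_filter, mem_sdiff]
  tauto

theorem cnt_eq_zero {H : Finset V} {i : Fin 4} : cnt cls H i = 0 ↔ ∀ v ∈ H, cls v ≠ i := by
  rw [cnt, card_eq_zero, filter_eq_empty_iff]

end types

end Pool.Agent.R133.Snp
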