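import Pool.Agent.R133.Snp.Lst

/-! Evaluation of coded combinations and soundness of the check. -/

set_option autoImplicit false

namespace Pool.Agent.R133.Snp

open MvPolynomial

/-- the linear combination attached to a coded list -/
noncomputable def ev (φ : ℕ → MvPolynomial ℕ ℤ) (L : List (ℕ × ℤ)) : MvPolynomial ℕ ℤ :=
  (L.map (fun p => p.2 • φ p.1)).sum

variable (φ : ℕ → MvPolynomial ℕ ℤ)

@[simp] theorem ev_nil : ev φ [] = 0 := rfl

@[simp] theorem ev_cons (p : ℕ × ℤ) (L : List (ℕ × ℤ)) :
    ev φ (p :: L) = p.2 • φ p.1 + ev φ L := by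
  simp [ev]

@[simp] theorem ev_append (L M : List (ℕ × ℤ)) : ev φ (L ++ M) = ev φ L + ev φ M := by
  simp [ev]

theorem ev_mrg (n : ℕ) (a b : List (ℕ × ℤ)) : ev φ (mrg n a b) = ev φ a + ev φ b := by
  induction n generalizing a b with
  | zero => rw [mrg, ev_append]
  | succ n ih =>
    match a, b with
    | [], b => simp [mrg]
    | a :: a', [] => simp [mrg]
    | (x, c) :: a, (y, d) :: b =>
      rw [mrg]
      cases h1 : Nat.blt x y with
      | true => simp only [cond_true, ev_cons, ih]; ring
      | false =>
        cases h2 : Nat.blt y x with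
        | true => simp only [cond_true, cond_false, ev_cons, ih]; ring
        | false =>
          cases h3 : Nat.beq x y with
          | true =>
            have h4 : x = y := Nat.eq_of_beq_eq_true h3
            subst h4
            simp only [cond_true, cond_false, ev_cons, ih, add_smul]
            ring
          | false => simp only [cond_false, ev_append]

theorem ev_prs (ls : List (List (ℕ × ℤ))) :
    ((prs ls).map (ev φ)).sum = (ls.map (ev φ)).sum := by
  induction ls using prs.induct with
  | case1 a b t ih =>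
    rw [prs]
    simp only [List.map_cons, List.sum_cons, ih, ev_mrg]
    ring
  | case2 t ht => 
    rw [prs]
    exact ht

theorem ev_mall (n : ℕ) (ls : List (List (ℕ × ℤ))) :
    ev φ (mall n ls) = (ls.map (ev φ)).sum := by
  induction n generalizing ls with
  | zero =>
    rw [mall]
    induction ls with
    | nil => simp
    | cons a ls ih => rw [List.flatten_cons, ev_append, ih, List.map_cons, List.sum_cons]
  | succ n ih => rw [mall, ih, ev_prs]

theorem ev_allz {L : List (ℕ × ℤ)} (h : allz L = true) : ev φ L = 0 := by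
  induction L with
  | nil => rfl
  | cons p L ih =>
    rw [allz, List.all_cons, Bool.and_eq_true] at h
    rw [ev_cons, ih h.2, eq_of_beq h.1]
    simp

theorem dec_enc (L : List ℕ) (h : ∀ x ∈ L, x < 16) : dec L.length (enc L) = L := by
  induction L with
  | nil => rfl
  | cons x L ih =>
    rw [List.length_cons, enc, dec]
    have hx := h x (by simp)
    rw [show (x + 16 * enc L) % 16 = x by omega, show (x + 16 * enc L) / 16 = enc L by omega,
      ih (fun y hy => h y (by simp [hy]))]

theorem length_dec (L n : ℕ) : (dec L n).length = L := by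
  induction L generalizing n with
  | zero => rfl
  | succ L ih => rw [dec, List.length_cons, ih]

attribute [local irreducible] dec

/-- `S`-polynomial of a code -/
noncomputable def SC (k : ℕ) (c : ℕ) : MvPolynomial ℕ ℤ := SP (yd (dec 13 c)) k

/-- weighted version -/
noncomputable def WC (n k : ℕ) (c : ℕ) : MvPolynomial ℕ ℤ :=
  X k ^ (n - (yd (dec 13 c)).card) * SP (yd (dec 13 c)) k

theorem okk_spec {n c : ℕ} (h : okk n c = true) : Srt (dec 13 c) ∧ (dec 13 c).sum = n ∧
    (dec 13 c).getD 0 0 < 16 := by
  rw [okk, Bool.and_eq_true, Bool.and_eq_true, Nat.blt_eq, headD_eq] at h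
  exact ⟨srt_spec h.1.1, Nat.eq_of_beq_eq_true h.1.2, h.2⟩

theorem SC_succ {n c : ℕ} (h : okk n c = true) (k : ℕ) :
    SC (k + 1) c = ((hk (dec 13 c)).map (WC n k)).sum := by
  obtain ⟨h1, h2, h3⟩ := okk_spec h
  rw [SC, SP_yd_succ h1, hk_eq, List.map_map, h2]
  congr 1
  apply List.map_congr_left
  intro m hm
  have hm' := (mem_hs _ _).1 hm
  rw [Function.comp_apply, WC]
  have hlen : m.length = 13 := by rw [hm'.1, length_dec]
  have : dec 13 (enc m) = m := by
    have := dec_enc m (by
      intro x hx
      obtain ⟨i, hi, rfl⟩ := List.getElem_of_mem hx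
      have e1 := (hm'.2 i (by omega)).2
      have e2 := h1 0 i (Nat.zero_le _)
      rw [List.getD_eq_getElem _ _ hi] at e1
      omega)
    rwa [hlen] at this
  rw [this]

theorem ev_Rp {n : ℕ} (L : List (ℕ × ℤ)) (h : L.all (fun p => okk n p.1) = true) (k : ℕ) :
    ((Rp L).map (ev (WC n k))).sum = ev (SC (k + 1)) L := by
  induction L with
  | nil => rfl
  | cons p L ih =>
    rw [List.all_cons, Bool.and_eq_true] at h
    rw [ev_cons, ← ih h.2, Rp, List.map_cons, List.map_cons, List.sum_cons, SC_succ h.1]
    congr 1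
    rw [ev, List.map_map, List.smul_sum, List.map_map]
    rfl

theorem ev_scale {n j k : ℕ} {c : ℤ} (L : List (ℕ × ℤ))
    (h : L.all (fun p => okk (n - j) p.1) = true) (hj : j ≤ n) :
    ev (WC n k) (L.map (fun p => (p.1, c * p.2))) = c • (X k ^ j * ev (SC k) L) := by
  induction L with
  | nil => simp
  | cons p L ih =>
    rw [List.all_cons, Bool.and_eq_true] at h
    obtain ⟨h1, h2, h3⟩ := okk_spec h.1
    rw [List.map_cons, ev_cons, ev_cons, ih h.2, mul_add, smul_add]
    congr 1
    simp only
    rw [WC, card_yd h1, h2, SC, show n - (n - j) = j by omega, mul_smul, mul_smul_comm]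

theorem stb_spec (i j l m : ℕ) : stb i j l m = true ↔ (i = 0 ∨ j = 0) ∧ (j = 0 ∨ l = 0) ∧
    (l = 0 ∨ m = 0) := by
  have e : ∀ x : ℕ, Nat.beq x 0 = true ↔ x = 0 := fun x => by rw [Nat.beq_eq]
  simp only [stb, Bool.and_eq_true, Bool.or_eq_true, e, and_assoc]

end Pool.Agent.R133.Snp
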