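import Pool.Agent.R133.Snp.Main

/-! The graph, its supports, and the Schur positivity. -/

set_option autoImplicit false

namespace Pool.Agent.R133.Snp

open MvPolynomial Finset

/-- class of a vertex: sizes `4, 2, 2, 5` -/
def cl (v : Fin 13) : Fin 4 := if v.val < 4 then 0 else if v.val < 6 then 1 else
  if v.val < 8 then 2 else 3

/-- the blow-up of `P_4` with independent classes of sizes `4, 2, 2, 5` -/
def G : SimpleGraph (Fin 13) where
  Adj u v := adj4 (cl u) (cl v)
  symm := ⟨fun u v h => by
    rcases h with h | h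
    · exact Or.inr h
    · exact Or.inl h⟩
  loopless := ⟨fun v h => by
    rcases h with h | h <;> omega⟩

/-- content of a colouring -/
noncomputable def con (f : Fin 13 → ℕ) : ℕ →₀ ℕ := ∑ v, Finsupp.single (f v) 1

theorem con_apply (f : Fin 13 → ℕ) (i : ℕ) : con f i = (univ.filter (fun v => f v = i)).card := by
  rw [con, Finsupp.finsetSum_apply, card_filter]
  refine sum_congr rfl (fun v _ => ?_)
  rw [Finsupp.single_apply]

theorem mem_support_PC (k : ℕ) (β : ℕ →₀ ℕ) :
    β ∈ (PC (fun u v => adj4 (cl u) (cl v)) univ k).support ↔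
    ∃ f ∈ CF (fun u v => adj4 (cl u) (cl v)) univ k, con f = β := by
  classical
  rw [mem_support_iff, PC, coeff_sum]
  have h : ∀ f : Fin 13 → ℕ, coeff β (∏ v, (X (f v) : MvPolynomial ℕ ℤ)) =
      if con f = β then 1 else 0 := by
    intro f
    have : (∏ v, (X (f v) : MvPolynomial ℕ ℤ)) = monomial (con f) 1 := by
      rw [con, monomial_sum_one]
      rfl
    rw [this, coeff_monomial]
  simp only [h]
  rw [← sum_filter, sum_const, nsmul_one, Nat.cast_ne_zero, Finset.card_ne_zero]
  constructor
  · rintro ⟨f, hf⟩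
    rw [mem_filter] at hf
    exact ⟨f, hf⟩
  · rintro ⟨f, hf⟩
    exact ⟨f, mem_filter.2 hf⟩

/-- colouring of type `(9,2,2)` -/
def f1 (v : Fin 13) : ℕ := if v.val < 4 then 0 else if v.val < 6 then 1 else
  if v.val < 8 then 2 else 0

/-- colouring of type `(7,6)` -/
def f2 (v : Fin 13) : ℕ := if v.val < 4 then 1 else if v.val < 6 then 0 else
  if v.val < 8 then 1 else 0

theorem f1_mem : f1 ∈ CF (fun u v => adj4 (cl u) (cl v)) univ 3 := by
  rw [mem_CF]
  refine ⟨by decide, fun v hv => absurd (mem_univ v) hv, ?_⟩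
  decide

theorem f2_mem : f2 ∈ CF (fun u v => adj4 (cl u) (cl v)) univ 3 := by
  rw [mem_CF]
  refine ⟨by decide, fun v hv => absurd (mem_univ v) hv, ?_⟩
  decide

/-- the missing exponent `(8,4,1)` -/
noncomputable def al : ℕ →₀ ℕ := Finsupp.single 0 8 + Finsupp.single 1 4 + Finsupp.single 2 1

theorem mid (i : ℕ) : (al i : ℝ) = (1 / 2 : ℝ) * (con f1 i : ℝ) + (1 / 2 : ℝ) * (con f2 i : ℝ) := by
  rw [con_apply, con_apply, al]
  simp only [Finsupp.coe_add, Pi.add_apply, Finsupp.single_apply]
  match i with
  | 0 =>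
    have e1 : (univ.filter (fun v => f1 v = 0)).card = 9 := by decide
    have e2 : (univ.filter (fun v => f2 v = 0)).card = 7 := by decide
    rw [e1, e2]; norm_num
  | 1 =>
    have e1 : (univ.filter (fun v => f1 v = 1)).card = 2 := by decide
    have e2 : (univ.filter (fun v => f2 v = 1)).card = 6 := by decide
    rw [e1, e2]; norm_num
  | 2 =>
    have e1 : (univ.filter (fun v => f1 v = 2)).card = 2 := by decide
    have e2 : (univ.filter (fun v => f2 v = 2)).card = 0 := by decide
    rw [e1, e2]; norm_num
  | i + 3 =>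
    have e1 : (univ.filter (fun v => f1 v = i + 3)).card = 0 := by
      rw [card_eq_zero, filter_eq_empty_iff]
      intro v _ h
      have : ∀ v, f1 v < 3 := by decide
      have := this v
      omega
    have e2 : (univ.filter (fun v => f2 v = i + 3)).card = 0 := by
      rw [card_eq_zero, filter_eq_empty_iff]
      intro v _ h
      have : ∀ v, f2 v < 3 := by decide
      have := this v
      omega
    rw [e1, e2]; norm_num

theorem al_notMem : al ∉ (PC (fun u v => adj4 (cl u) (cl v)) univ 3).support := by
  rw [mem_support_PC]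
  rintro ⟨f, hf, hc⟩
  rw [mem_CF] at hf
  have hcard : ∀ i, (univ.filter (fun v => f v = i)).card = al i := by
    intro i; rw [← con_apply, hc]
  have h0 : (univ.filter (fun v => f v = 0)).card = 8 := by
    rw [hcard, al]; simp
  have h1 : (univ.filter (fun v => f v = 1)).card = 4 := by
    rw [hcard, al]; simp
  have h2 : (univ.filter (fun v => f v = 2)).card = 1 := by
    rw [hcard, al]; simp
  have hst : ∀ c, stb (cnt cl (univ.filter (fun v => f v = c)) 0)
      (cnt cl (univ.filter (fun v => f v = c)) 1) (cnt cl (univ.filter (fun v => f v = c)) 2)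
      (cnt cl (univ.filter (fun v => f v = c)) 3) = true := by
    intro c
    rw [stb_iff]
    intro u hu v hv huv
    rw [mem_filter] at hu hv
    exact hf.2.2 u hu.1 v hv.1 huv (hu.2.trans hv.2.symm)
  have hsum : ∀ i, cnt cl (univ.filter (fun v => f v = 0)) i +
      cnt cl (univ.filter (fun v => f v = 1)) i + cnt cl (univ.filter (fun v => f v = 2)) i =
      cnt cl univ i := by
    intro i
    have e := card_eq_sum_card_fiberwise (s := univ.filter (fun v => cl v = i)) (f := f)
      (t := range 3) (fun v _ => mem_coe.2 (mem_range.2 (hf.1 v (mem_univ v))))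
    have key : ∀ c, ((univ.filter (fun v => cl v = i)).filter (fun v => f v = c)).card =
        cnt cl (univ.filter (fun v => f v = c)) i := by
      intro c
      rw [cnt]
      congr 1
      ext v
      simp [and_comm]
    show _ = (univ.filter (fun v => cl v = i)).card
    rw [e, sum_range_succ, sum_range_succ, sum_range_one, key, key, key]
  have c0 : cnt cl univ 0 = 4 := by decide
  have c1 : cnt cl univ 1 = 2 := by decide
  have c2 : cnt cl univ 2 = 2 := by decide
  have c3 : cnt cl univ 3 = 5 := by decide
  have s0 := hsum 0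
  have s1 := hsum 1
  have s2 := hsum 2
  have s3 := hsum 3
  have t0 := hst 0
  have t1 := hst 1
  have t2 := hst 2
  rw [stb_spec] at t0 t1 t2
  rw [card_cnt cl] at h0 h1 h2
  omega

/-- the combination as a finitely supported function -/
noncomputable def toC (L : List (ℕ × ℤ)) : YoungDiagram →₀ ℕ :=
  (L.map (fun p => Finsupp.single (yd (dec 13 p.1)) p.2.toNat)).sum

attribute [local irreducible] F dec

theorem toC_sum (L : List (ℕ × ℤ)) (hL : L.all (fun p => decide (0 ≤ p.2)) = true) (k : ℕ) :
    (toC L).sum (fun μ a => a • SP μ k) = ev (SC k) L := by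
  induction L with
  | nil => simp [toC]
  | cons p L ih =>
    rw [List.all_cons, Bool.and_eq_true, decide_eq_true_eq] at hL
    rw [ev_cons, ← ih hL.2, toC, List.map_cons, List.sum_cons,
      Finsupp.sum_add_index' (h := fun (μ : YoungDiagram) (a : ℕ) => a • SP μ k)
        (fun _ => zero_smul _ _) (fun _ _ _ => add_smul _ _ _),
      Finsupp.sum_single_index (h := fun (μ : YoungDiagram) (a : ℕ) => a • SP μ k)
        (zero_smul _ _)]
    congr 1
    rw [SC, ← natCast_zsmul, Int.toNat_of_nonneg hL.1]

theorem F_nonneg : (F 4 2 2 5).all (fun p => decide (0 ≤ p.2)) = true := by decide +kernel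

theorem PC_univ (k : ℕ) : PC (fun u v => adj4 (cl u) (cl v)) univ k =
    (toC (F 4 2 2 5)).sum (fun μ a => a • SP μ k) := by
  rw [toC_sum _ F_nonneg, PC_eq_Q]
  have c0 : cnt cl univ 0 = 4 := by decide
  have c1 : cnt cl univ 1 = 2 := by decide
  have c2 : cnt cl univ 2 = 2 := by decide
  have c3 : cnt cl univ 3 = 5 := by decide
  rw [c0, c1, c2, c3]
  exact Q_eq k 4 le_rfl 2 le_rfl 2 le_rfl 5 le_rfl

end Pool.Agent.R133.Snp
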