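import Pool.Agent.R133.Snp.Br
import Pool.Agent.R133.Snp.Tab

/-! Lists and Young diagrams; the branching rule on lists. -/

set_option autoImplicit false

namespace Pool.Agent.R133.Snp

open MvPolynomial

/-- weakly decreasing, as a statement on entries -/
def Srt (l : List ℕ) : Prop := ∀ i j, i ≤ j → l.getD j 0 ≤ l.getD i 0

theorem Srt_of_step {l : List ℕ} (h : ∀ i, l.getD (i + 1) 0 ≤ l.getD i 0) : Srt l := by
  intro i j hij
  induction j, hij using Nat.le_induction with
  | base => exact le_rfl
  | succ n hn ih => exact (h n).trans ih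

theorem headD_eq (l : List ℕ) : l.headD 0 = l.getD 0 0 := by
  cases l <;> rfl

theorem srt_spec {l : List ℕ} (h : srt l = true) : Srt l := by
  apply Srt_of_step
  induction l with
  | nil => intro i; simp
  | cons x l ih =>
    rw [srt, Bool.and_eq_true, Nat.ble_eq] at h
    intro i
    cases i with
    | zero =>
      rw [List.getD_cons_succ, List.getD_cons_zero, ← headD_eq]
      exact h.1
    | succ i =>
      rw [List.getD_cons_succ, List.getD_cons_succ]
      exact ih h.2 i

/-- the cells of a diagram with given rows -/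
def cellsL (i : ℕ) : List ℕ → List (ℕ × ℕ)
  | [] => []
  | r :: w => (List.range r).map (fun j => (i, j)) ++ cellsL (i + 1) w

theorem mem_cellsL (i : ℕ) (w : List ℕ) (c : ℕ × ℕ) :
    c ∈ cellsL i w ↔ i ≤ c.1 ∧ c.2 < w.getD (c.1 - i) 0 := by
  obtain ⟨a, b⟩ := c
  induction w generalizing i with
  | nil => simp [cellsL]
  | cons r w ih =>
    rw [cellsL, List.mem_append, ih]
    simp only [List.mem_map, List.mem_range, Prod.mk.injEq]
    constructor
    · rintro (⟨j, hj, rfl, rfl⟩ | ⟨h1, h2⟩)
      · simpa using hj
      · refine ⟨by omega, ?_⟩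
        rw [show a - i = (a - (i + 1)) + 1 by omega, List.getD_cons_succ]
        exact h2
    · rintro ⟨h1, h2⟩
      rcases Nat.eq_or_lt_of_le h1 with h | h
      · subst h
        left
        exact ⟨b, by simpa using h2, rfl, rfl⟩
      · right
        refine ⟨by omega, ?_⟩
        rw [show a - i = (a - (i + 1)) + 1 by omega, List.getD_cons_succ] at h2
        exact h2

theorem nodup_cellsL (i : ℕ) (w : List ℕ) : (cellsL i w).Nodup := by
  induction w generalizing i with
  | nil => simp [cellsL]
  | cons r w ih =>
    rw [cellsL, List.nodup_append']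
    refine ⟨List.Nodup.map (fun x y h => by simpa using h) List.nodup_range, ih _, ?_⟩
    rw [List.disjoint_left]
    intro c hc hc'
    obtain ⟨j, -, rfl⟩ := List.mem_map.1 hc
    have := ((mem_cellsL _ _ _).1 hc').1
    simp only at this
    omega

theorem length_cellsL (i : ℕ) (w : List ℕ) : (cellsL i w).length = w.sum := by
  induction w generalizing i with
  | nil => simp [cellsL]
  | cons r w ih => rw [cellsL, List.length_append, ih]; simp

open Classical in
/-- the diagram of a list (empty if not weakly decreasing) -/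
noncomputable def yd (l : List ℕ) : YoungDiagram :=
  if h : Srt l then
    { cells := (cellsL 0 l).toFinset
      isLowerSet := by
        rintro ⟨i, j⟩ ⟨i', j'⟩ hle hm
        simp only [Finset.mem_coe, List.mem_toFinset, mem_cellsL, Nat.sub_zero, Nat.zero_le,
          true_and] at hm ⊢
        have hi : i' ≤ i := hle.1
        have hj : j' ≤ j := hle.2
        have := h i' i hi
        omega }
  else ⊥

theorem mem_yd {l : List ℕ} (h : Srt l) (p : ℕ × ℕ) : p ∈ yd l ↔ p.2 < l.getD p.1 0 := by
  rw [yd, dif_pos h]
  show p ∈ (cellsL 0 l).toFinset ↔ _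
  rw [List.mem_toFinset, mem_cellsL]
  simp

theorem card_yd {l : List ℕ} (h : Srt l) : (yd l).card = l.sum := by
  rw [yd, dif_pos h]
  show ((cellsL 0 l).toFinset).card = _
  rw [List.toFinset_card_of_nodup (nodup_cellsL 0 l), length_cellsL]

theorem mem_hs (l m : List ℕ) : m ∈ hs l ↔ m.length = l.length ∧
    ∀ i < l.length, l.getD (i + 1) 0 ≤ m.getD i 0 ∧ m.getD i 0 ≤ l.getD i 0 := by
  induction l generalizing m with
  | nil =>
    rw [hs, List.mem_singleton]
    constructor
    · rintro rfl; simp
    · rintro ⟨h, -⟩; exact List.length_eq_zero_iff.1 h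
  | cons x l ih =>
    rw [hs, List.mem_flatMap]
    constructor
    · rintro ⟨r, hr, hm⟩
      obtain ⟨y, hy, rfl⟩ := List.mem_map.1 hm
      rw [List.mem_range'_1] at hy
      obtain ⟨h1, h2⟩ := (ih r).1 hr
      refine ⟨by simp [h1], ?_⟩
      intro i hi
      cases i with
      | zero =>
        rw [List.getD_cons_succ, List.getD_cons_zero, List.getD_cons_zero, ← headD_eq]
        omega
      | succ i =>
        rw [List.getD_cons_succ, List.getD_cons_succ, List.getD_cons_succ]
        exact h2 i (by simpa using hi)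
    · rintro ⟨h1, h2⟩
      cases m with
      | nil => simp at h1
      | cons y r =>
        refine ⟨r, (ih r).2 ⟨by simpa using h1, ?_⟩, ?_⟩
        · intro i hi
          have := h2 (i + 1) (by simpa using hi)
          rwa [List.getD_cons_succ, List.getD_cons_succ, List.getD_cons_succ] at this
        · refine List.mem_map.2 ⟨y, ?_, rfl⟩
          rw [List.mem_range'_1]
          have := h2 0 (by simp)
          rw [List.getD_cons_succ, List.getD_cons_zero, List.getD_cons_zero, ← headD_eq] at this
          omega

theorem nodup_hs (l : List ℕ) : (hs l).Nodup := by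
  induction l with
  | nil => simp [hs]
  | cons x l ih =>
    rw [hs, List.nodup_flatMap]
    refine ⟨fun r _ => ?_, ?_⟩
    · refine List.Nodup.map (fun x y h => (List.cons.inj h).1) List.nodup_range'
    · refine List.Pairwise.imp ?_ ih
      intro v v' hne
      rw [Function.onFun, List.disjoint_left]
      intro u hu hu'
      obtain ⟨x, -, rfl⟩ := List.mem_map.1 hu
      obtain ⟨y, -, h⟩ := List.mem_map.1 hu'
      exact hne (List.cons.inj h).2.symm

theorem hk_eq (l : List ℕ) : hk l = (hs l).map enc := by
  induction l with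
  | nil => rfl
  | cons x l ih =>
    rw [hk, hs, ih, List.map_flatMap, List.flatMap_map]
    congr 1
    funext r
    rw [List.map_map]
    rfl

theorem getD_len {l : List ℕ} {i : ℕ} (h : l.length ≤ i) : l.getD i 0 = 0 :=
  List.getD_eq_default _ _ h

theorem Srt_of_mem_hs {l m : List ℕ} (hm : m ∈ hs l) : Srt m := by
  obtain ⟨h1, h2⟩ := (mem_hs l m).1 hm
  apply Srt_of_step
  intro i
  by_cases hi : i + 1 < l.length
  · exact (h2 (i + 1) hi).2.trans (h2 i (by omega)).1
  · rw [getD_len (l := m) (by omega)]
    exact Nat.zero_le _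

theorem ext_getD {l m : List ℕ} (h : l.length = m.length) (h2 : ∀ i, l.getD i 0 = m.getD i 0) :
    l = m := by
  apply List.ext_getElem h
  intro i hi hi'
  have := h2 i
  rwa [List.getD_eq_getElem _ _ hi, List.getD_eq_getElem _ _ hi'] at this

theorem HS_yd {l m : List ℕ} (hl : Srt l) (hm : m ∈ hs l) : HS (yd m) (yd l) := by
  obtain ⟨h1, h2⟩ := (mem_hs l m).1 hm
  have hs := Srt_of_mem_hs hm
  refine ⟨?_, ?_⟩
  · intro p hp
    rw [mem_yd hs] at hp
    rw [mem_yd hl]
    by_cases hi : p.1 < l.length
    · exact lt_of_lt_of_le hp (h2 _ hi).2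
    · rw [getD_len (l := m) (by omega)] at hp
      omega
  · intro i j h
    rw [mem_yd hl] at h
    rw [mem_yd hs]
    simp only at h ⊢
    by_cases hi : i < l.length
    · exact lt_of_lt_of_le h (h2 _ hi).1
    · rw [getD_len (l := l) (by omega)] at h
      omega

theorem sum_HS {M : Type*} [AddCommMonoid M] {l : List ℕ} (hl : Srt l)
    [Fintype {κ // HS κ (yd l)}] (g : YoungDiagram → M) :
    ∑ κ : {κ // HS κ (yd l)}, g κ.1 = ((hs l).map (fun m => g (yd m))).sum := by
  classical
  rw [← List.sum_toFinset _ (nodup_hs l)]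
  symm
  refine Finset.sum_bij (fun m hm => ⟨yd m, HS_yd hl (List.mem_toFinset.1 hm)⟩) ?_ ?_ ?_ ?_
  · intro m hm; exact Finset.mem_univ _
  · intro m hm m' hm' h
    rw [List.mem_toFinset] at hm hm'
    have h3 : yd m = yd m' := congrArg Subtype.val h
    have e1 := (mem_hs l m).1 hm
    have e2 := (mem_hs l m').1 hm'
    refine ext_getD (e1.1.trans e2.1.symm) (fun i => ?_)
    have hs1 := Srt_of_mem_hs hm
    have hs2 := Srt_of_mem_hs hm'
    have key : ∀ j, j < m.getD i 0 ↔ j < m'.getD i 0 := by
      intro j
      rw [← mem_yd hs1 (i, j), ← mem_yd hs2 (i, j), h3]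
    by_contra hne
    rcases lt_or_gt_of_ne hne with h4 | h4
    · exact absurd ((key _).2 h4) (lt_irrefl _)
    · exact absurd ((key _).1 h4) (lt_irrefl _)
  · intro κ _
    have hκ := κ.2
    let m : List ℕ := (List.range l.length).map κ.1.rowLen
    have hlen : m.length = l.length := by simp [m]
    have hrow : ∀ i, m.getD i 0 = κ.1.rowLen i := by
      intro i
      by_cases hi : i < l.length
      · rw [List.getD_eq_getElem _ _ (by rw [hlen]; exact hi)]
        simp [m]
      · rw [getD_len (l := m) (by omega)]
        symm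
        by_contra hne
        have h0 : (i, 0) ∈ κ.1 := YoungDiagram.mem_iff_lt_rowLen.2 (Nat.pos_of_ne_zero hne)
        have h1 : (i, 0) ∈ yd l := hκ.1 h0
        rw [mem_yd hl] at h1
        simp only at h1
        rw [getD_len (l := l) (by omega)] at h1
        exact lt_irrefl _ h1
    have hm : m ∈ hs l := by
      rw [mem_hs]
      refine ⟨hlen, fun i hi => ?_⟩
      rw [hrow]
      constructor
      · by_contra hn
        push Not at hn
        have h1 : (i + 1, κ.1.rowLen i) ∈ yd l := (mem_yd hl _).2 hn
        have h2 := hκ.2 _ _ h1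
        rw [YoungDiagram.mem_iff_lt_rowLen] at h2
        exact lt_irrefl _ h2
      · by_contra hn
        push Not at hn
        have h1 : (i, l.getD i 0) ∈ κ.1 := YoungDiagram.mem_iff_lt_rowLen.2 hn
        have h2 : (i, l.getD i 0) ∈ yd l := hκ.1 h1
        rw [mem_yd hl] at h2
        exact lt_irrefl _ h2
    refine ⟨m, List.mem_toFinset.2 hm, ?_⟩
    apply Subtype.ext
    apply YoungDiagram.ext
    ext p
    rw [YoungDiagram.mem_cells, YoungDiagram.mem_cells, mem_yd (Srt_of_mem_hs hm), hrow]
    exact YoungDiagram.mem_iff_lt_rowLen.symm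
  · intro m hm
    rfl

/-- branching on lists -/
theorem SP_yd_succ {l : List ℕ} (hl : Srt l) (k : ℕ) :
    SP (yd l) (k + 1) =
      ((hs l).map (fun m => X k ^ (l.sum - (yd m).card) * SP (yd m) k)).sum := by
  haveI : Fintype {κ // HS κ (yd l)} := Fintype.ofFinite _
  rw [SP_succ, card_yd hl]
  exact sum_HS hl (fun κ => X k ^ (l.sum - κ.card) * SP κ k)

end Pool.Agent.R133.Snp
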