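import Pool.Agent.R133.Snp.Ev
import Pool.Agent.R133.Snp.Chrom
import Pool.Agent.R133.Snp.Chk
import Pool.Agent.R133.Snp.Chk30
import Pool.Agent.R133.Snp.Chk31
import Pool.Agent.R133.Snp.Chk32
import Pool.Agent.R133.Snp.Chk40
import Pool.Agent.R133.Snp.Chk41
import Pool.Agent.R133.Snp.Chk42

/-! Schur expansion of the chromatic polynomials of the blow-ups. -/

set_option autoImplicit false

namespace Pool.Agent.R133.Snp

open MvPolynomial Finset

/-- the recursion on types -/
noncomputable def Q : ℕ → ℕ → ℕ → ℕ → ℕ → MvPolynomial ℕ ℤ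
  | 0, a, u, s, b => if a = 0 ∧ u = 0 ∧ s = 0 ∧ b = 0 then 1 else 0
  | k+1, a, u, s, b => Bn a fun i => Bn u fun j => Bn s fun l => Bn b fun m =>
      if stb i j l m = true then X k ^ (i + j + l + m) * Q k (a - i) (u - j) (s - l) (b - m) else 0

theorem chk_of_chks {a u : ℕ} (h : chks a u = true) : ∀ s ≤ 2, ∀ b ≤ 5, chk a u s b = true := by
  intro s hs b hb
  rw [chks, List.all_eq_true] at h
  have h1 := h s (by rw [List.mem_range]; omega)
  rw [List.all_eq_true] at h1
  exact h1 b (by rw [List.mem_range]; omega)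

theorem chk_all : ∀ a ≤ 4, ∀ u ≤ 2, ∀ s ≤ 2, ∀ b ≤ 5, chk a u s b = true := by
  intro a ha u hu
  interval_cases a <;> interval_cases u
  · exact chk_of_chks chk00
  · exact chk_of_chks chk01
  · exact chk_of_chks chk02
  · exact chk_of_chks chk10
  · exact chk_of_chks chk11
  · exact chk_of_chks chk12
  · exact chk_of_chks chk20
  · exact chk_of_chks chk21
  · exact chk_of_chks chk22
  · exact chk_of_chks chk30
  · exact chk_of_chks chk31
  · exact chk_of_chks chk32
  · exact chk_of_chks chk40
  · exact chk_of_chks chk41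
  · exact chk_of_chks chk42

attribute [local irreducible] F chk mall hk dec

theorem chk_spec {a u s b : ℕ} (h : chk a u s b = true) :
    (F a u s b).all (fun p => okk (a + u + s + b) p.1) = true ∧
    allz (mall 14 (Lp a u s b ++ Rp (F a u s b))) = true := by
  unfold chk at h
  rwa [Bool.and_eq_true] at h

theorem sum_flatMap' {α β M : Type*} [AddCommMonoid M] (l : List α) (f : α → List β) (g : β → M) :
    ((l.flatMap f).map g).sum = (l.map (fun x => ((f x).map g).sum)).sum := by
  induction l with
  | nil => rfl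
  | cons x l ih => rw [List.flatMap_cons, List.map_append, List.sum_append, ih, List.map_cons,
      List.sum_cons]

theorem sum_map_range' {M : Type*} [AddCommMonoid M] (n : ℕ) (f : ℕ → M) :
    ((List.range n).map f).sum = ∑ i ∈ range n, f i := rfl

theorem sum_Lp (φ : ℕ → MvPolynomial ℕ ℤ) (a u s b : ℕ) :
    ((Lp a u s b).map (ev φ)).sum =
      ∑ i ∈ range (a + 1), ∑ j ∈ range (u + 1), ∑ l ∈ range (s + 1), ∑ m ∈ range (b + 1),
        ev φ (bif stb i j l m then (F (a-i) (u-j) (s-l) (b-m)).map
          (fun p => (p.1, -(((a.choose i * u.choose j * s.choose l * b.choose m : ℕ) : ℤ)) * p.2))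
        else []) := by
  rw [Lp, sum_flatMap', sum_map_range']
  refine sum_congr rfl (fun i _ => ?_)
  rw [sum_flatMap', sum_map_range']
  refine sum_congr rfl (fun j _ => ?_)
  rw [sum_flatMap', sum_map_range']
  refine sum_congr rfl (fun l _ => ?_)
  rw [List.map_map, sum_map_range']
  rfl

theorem F_zero : F 0 0 0 0 = [(0, 1)] := by decide +kernel

theorem dec_zero : dec 13 0 = [0,0,0,0,0,0,0,0,0,0,0,0,0] := by decide +kernel

theorem yd_bot : yd (dec 13 0) = ⊥ := by
  have h : okk 0 0 = true := by
    rw [okk, dec_zero]; decide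
  obtain ⟨h1, h2, -⟩ := okk_spec h
  have h3 := card_yd h1
  rw [h2] at h3
  apply YoungDiagram.ext
  rw [YoungDiagram.cells_bot]
  exact card_eq_zero.1 h3

theorem ev_SC_zero_of_all {n : ℕ} (hn : n ≠ 0) (L : List (ℕ × ℤ))
    (h : L.all (fun p => okk n p.1) = true) : ev (SC 0) L = 0 := by
  induction L with
  | nil => rfl
  | cons p L ih =>
    rw [List.all_cons, Bool.and_eq_true] at h
    obtain ⟨h1, h2, -⟩ := okk_spec h.1
    rw [ev_cons, ih h.2, SC, SP_zero_of_card _ (by rw [card_yd h1, h2]; exact hn)]
    simp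

theorem Q_eq (k : ℕ) : ∀ a ≤ 4, ∀ u ≤ 2, ∀ s ≤ 2, ∀ b ≤ 5,
    Q k a u s b = ev (SC k) (F a u s b) := by
  induction k with
  | zero =>
    intro a ha u hu s hs b hb
    rw [Q]
    split_ifs with h
    · obtain ⟨rfl, rfl, rfl, rfl⟩ := h
      rw [F_zero, ev_cons, ev_nil, SC, yd_bot, SP_zero_bot]
      simp
    · symm
      refine ev_SC_zero_of_all ?_ _ (chk_spec (chk_all a ha u hu s hs b hb)).1
      omega
  | succ k ih =>
    intro a ha u hu s hs b hb
    obtain ⟨h1, h2⟩ := chk_spec (chk_all a ha u hu s hs b hb)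
    have h3 := ev_allz (WC (a + u + s + b) k) h2
    rw [ev_mall, List.map_append, List.sum_append, ev_Rp _ h1, sum_Lp] at h3
    rw [← neg_eq_iff_add_eq_zero] at h3
    rw [← h3, Q]
    simp only [Bn, Finset.smul_sum, ← Finset.sum_neg_distrib]
    refine sum_congr rfl (fun i hi => sum_congr rfl (fun j hj => sum_congr rfl (fun l hl =>
      sum_congr rfl (fun m hm => ?_))))
    rw [mem_range] at hi hj hl hm
    cases hst : stb i j l m with
    | false => simp
    | true =>
      rw [cond_true, if_pos rfl]
      have h4 := (chk_spec (chk_all (a - i) (by omega) (u - j) (by omega) (s - l) (by omega)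
        (b - m) (by omega))).1
      rw [show a - i + (u - j) + (s - l) + (b - m) = (a + u + s + b) - (i + j + l + m) by omega]
        at h4
      rw [ev_scale _ h4 (by omega), ih (a - i) (by omega) (u - j) (by omega) (s - l) (by omega)
        (b - m) (by omega), neg_smul, neg_neg, smul_smul, smul_smul, smul_smul, ← natCast_zsmul]

/-- adjacency of the classes of `P_4` -/
def adj4 (i j : Fin 4) : Prop := i.val + 1 = j.val ∨ j.val + 1 = i.val

instance : DecidableRel adj4 := fun i j => by unfold adj4; infer_instance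

section
variable {V : Type} [Fintype V] [DecidableEq V] (cls : V → Fin 4)

theorem stb_iff (S : Finset V) : stb (cnt cls S 0) (cnt cls S 1) (cnt cls S 2) (cnt cls S 3) = true ↔
    Stb (fun u v => adj4 (cls u) (cls v)) S := by
  rw [stb_spec]
  simp only [cnt_eq_zero, Stb]
  constructor
  · rintro ⟨h1, h2, h3⟩ u hu v hv h
    rcases h with h | h
    · generalize hx : cls u = x at h
      generalize hy : cls v = y at h
      fin_cases x <;> fin_cases y <;> simp at h
      · rcases h1 with h1 | h1
        · exact h1 u hu hx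
        · exact h1 v hv hy
      · rcases h2 with h1 | h1
        · exact h1 u hu hx
        · exact h1 v hv hy
      · rcases h3 with h1 | h1
        · exact h1 u hu hx
        · exact h1 v hv hy
    · generalize hx : cls u = x at h
      generalize hy : cls v = y at h
      fin_cases x <;> fin_cases y <;> simp at h
      · rcases h1 with h1 | h1
        · exact h1 v hv hy
        · exact h1 u hu hx
      · rcases h2 with h1 | h1
        · exact h1 v hv hy
        · exact h1 u hu hx
      · rcases h3 with h1 | h1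
        · exact h1 v hv hy
        · exact h1 u hu hx
  · intro h
    have key : ∀ i j : Fin 4, adj4 i j → (∀ v ∈ S, cls v ≠ i) ∨ (∀ v ∈ S, cls v ≠ j) := by
      intro i j hij
      by_contra hn
      push Not at hn
      obtain ⟨⟨u, hu, h1⟩, ⟨v, hv, h2⟩⟩ := hn
      exact h u hu v hv (by rw [h1, h2]; exact hij)
    exact ⟨key 0 1 (by decide), key 1 2 (by decide), key 2 3 (by decide)⟩

theorem PC_eq_Q (k : ℕ) (H : Finset V) : PC (fun u v => adj4 (cls u) (cls v)) H k =
    Q k (cnt cls H 0) (cnt cls H 1) (cnt cls H 2) (cnt cls H 3) := by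
  induction k generalizing H with
  | zero =>
    rw [PC_zero, Q]
    have h : (H = ∅) ↔ (cnt cls H 0 = 0 ∧ cnt cls H 1 = 0 ∧ cnt cls H 2 = 0 ∧ cnt cls H 3 = 0) := by
      rw [← card_eq_zero, card_cnt cls]
      omega
    simp only [h]
  | succ k ih =>
    rw [PC_succ, sum_filter, Q, ← sum_types cls H (fun i j l m =>
      if stb i j l m = true then X k ^ (i + j + l + m) *
        Q k (cnt cls H 0 - i) (cnt cls H 1 - j) (cnt cls H 2 - l) (cnt cls H 3 - m) else 0)]
    refine sum_congr rfl (fun S hS => ?_)
    rw [mem_powerset] at hS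
    simp only [stb_iff]
    rw [ih, card_cnt cls S, cnt_sdiff cls hS, cnt_sdiff cls hS, cnt_sdiff cls hS, cnt_sdiff cls hS]

end

end Pool.Agent.R133.Snp
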